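import Pool.Agent.H95.Blid

set_option autoImplicit false
open Topology Metric unitInterval

theorem Pool.Agent.Results.MP_a52dbe_an.No.result (r : ℝ) (hr : 0 < r) :
    ∃ U ∈ 𝓝ˢ (sphere (0 : C(I, ℝ)) r), ∀ q : ℕ∞, 1 ≤ q →
      ¬ ∃ H : C(I, ℝ) → C(I, ℝ), ContDiff ℝ q H ∧ (∀ x, H x ∈ U) ∧
        ∃ V ∈ 𝓝ˢ (sphere (0 : C(I, ℝ)) r), ∀ x ∈ V, H x = x :=
  Pool.Agent.H95.Blid.main r hr
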